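import Pool.Agent.Run7.h257.NP.Stm

/-! Piece CNT of the project NP: many good integers. -/

set_option autoImplicit false

namespace Pool.Agent.Run7.h213.NP

open Finset
open Pool.Agent.Run7.h257.NP

/-- the primes of the range -/
def BB (x : ℕ) : Finset ℕ := (Ioc (x / 4) x).filter Nat.Prime

theorem theta_split (x : ℕ) :
    Chebyshev.theta (x : ℝ) = Chebyshev.theta ((x / 4 : ℕ) : ℝ) + ∑ p ∈ BB x, Real.log p := by
  unfold Chebyshev.theta BB
  rw [Nat.floor_natCast, Nat.floor_natCast]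
  have h : Ioc 0 x = Ioc 0 (x / 4) ∪ Ioc (x / 4) x := by
    rw [Finset.Ioc_union_Ioc_eq_Ioc (Nat.zero_le _) (Nat.div_le_self x 4)]
  rw [h, Finset.filter_union, Finset.sum_union]
  rw [Finset.disjoint_left]
  intro a ha hb
  rw [mem_filter, mem_Ioc] at ha hb
  omega

theorem BB_card {x : ℕ} (hx : 100000000 ≤ x) :
    Real.log 2 / 4 * x ≤ ((BB x).card : ℝ) * Real.log x := by
  have hxr : (100000000 : ℝ) ≤ x := by exact_mod_cast hx
  have hx0 : (0 : ℝ) < x := by linarith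
  have h1 := Chebyshev.theta_ge x
  have h2 := Chebyshev.theta_le_log4_mul_x (x := ((x / 4 : ℕ) : ℝ)) (Nat.cast_nonneg _)
  have h3 := theta_split x
  have h4 : ((x / 4 : ℕ) : ℝ) ≤ (x : ℝ) / 4 := by
    have := Nat.cast_div_le (α := ℝ) (m := x) (n := 4)
    simpa using this
  have h5 : Real.log 4 = 2 * Real.log 2 := by
    rw [show (4 : ℝ) = 2 ^ 2 by norm_num, Real.log_pow]; norm_num
  have hl2 : 0.6931471803 < Real.log 2 := Real.log_two_gt_d9
  have hl2' : Real.log 2 < 0.6931471808 := Real.log_two_lt_d9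
  have h6 : Real.log 4 * ((x / 4 : ℕ) : ℝ) ≤ Real.log 2 / 2 * x := by
    rw [h5]
    calc 2 * Real.log 2 * ((x / 4 : ℕ) : ℝ) ≤ 2 * Real.log 2 * ((x : ℝ) / 4) :=
          mul_le_mul_of_nonneg_left h4 (by linarith)
      _ = Real.log 2 / 2 * x := by ring
  -- the error terms
  set w := Real.sqrt (Real.sqrt x) with hw
  have hs0 : 0 ≤ Real.sqrt x := Real.sqrt_nonneg _
  have hw0 : 0 ≤ w := Real.sqrt_nonneg _
  have hw2 : w ^ 2 = Real.sqrt x := Real.sq_sqrt hs0
  have hw4 : w ^ 4 = x := by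
    have : w ^ 4 = (w ^ 2) ^ 2 := by ring
    rw [this, hw2, Real.sq_sqrt hx0.le]
  have hw100 : 100 ≤ w := by
    by_contra hcon
    push Not at hcon
    have : w ^ 4 < 100 ^ 4 := pow_lt_pow_left₀ hcon hw0 (by norm_num)
    rw [hw4] at this
    linarith
  have hlogx : Real.log x ≤ 4 * w := by
    have hwpos : 0 < w := by linarith
    have e1 : Real.log x = 4 * Real.log w := by
      rw [← hw4, Real.log_pow]; norm_num
    have e2 : Real.log w ≤ w - 1 := Real.log_le_sub_one_of_pos hwpos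
    rw [e1]; linarith
  have hlogx1 : Real.log (x + 1) ≤ 1 + 4 * w := by
    have e1 : Real.log (x + 1) ≤ Real.log (2 * x) := Real.log_le_log (by linarith) (by linarith)
    have e2 : Real.log (2 * x) = Real.log 2 + Real.log x := Real.log_mul (by norm_num) hx0.ne'
    linarith
  have herr : 2 * Real.sqrt x * Real.log x ≤ 8 * w ^ 3 := by
    rw [← hw2]
    calc 2 * w ^ 2 * Real.log x ≤ 2 * w ^ 2 * (4 * w) :=
          mul_le_mul_of_nonneg_left hlogx (by positivity)
      _ = 8 * w ^ 3 := by ring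
  have herr2 : 8 * w ^ 3 ≤ 0.08 * x := by
    rw [← hw4]
    nlinarith [pow_nonneg hw0 3]
  have herr3 : 1 + 4 * w ≤ 0.05 * x := by
    rw [← hw4]
    nlinarith [pow_nonneg hw0 3, pow_nonneg hw0 2, mul_nonneg hw0 hw0]
  -- the sum over the primes
  have h7 : ∑ p ∈ BB x, Real.log p ≤ ((BB x).card : ℝ) * Real.log x := by
    rw [← nsmul_eq_mul]
    refine Finset.sum_le_card_nsmul _ _ _ fun p hp => ?_
    unfold BB at hp
    rw [mem_filter, mem_Ioc] at hp
    refine Real.log_le_log ?_ ?_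
    · exact_mod_cast hp.2.pos
    · exact_mod_cast hp.1.2
  have h8 : (x : ℝ) * Real.log 2 - Real.log (x + 1) - 2 * Real.sqrt x * Real.log x ≤
      Real.log 2 / 2 * x + ∑ p ∈ BB x, Real.log p := by
    have := h1
    rw [h3] at this
    linarith
  have h9 : Real.log 2 / 4 * x ≥ 0.17 * x := by nlinarith
  linarith

/-- the solutions of the congruence -/
theorem exists_m {q h b : ℕ} (hq : q.Prime) (hb : b.Prime) (hbh : ¬ b ∣ h) (h1 : 1 < h)
    (hhq : h < q) : ∃ n m : ℕ, 1 ≤ m ∧ m < h ∧ n * h = q + b * m := by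
  have : NeZero h := ⟨by omega⟩
  have hcop : Nat.Coprime b h := (Nat.Prime.coprime_iff_not_dvd hb).2 hbh
  set u := ZMod.unitOfCoprime b hcop with hu
  set m := ((-(q : ZMod h)) * ((u⁻¹ : (ZMod h)ˣ) : ZMod h)).val with hm
  have hmc : ((m : ℕ) : ZMod h) = (-(q : ZMod h)) * ((u⁻¹ : (ZMod h)ˣ) : ZMod h) := by
    rw [hm, ZMod.natCast_val, ZMod.cast_id]
  have hbu : (b : ZMod h) = (u : ZMod h) := by rw [hu, ZMod.coe_unitOfCoprime]
  have hz : ((q + b * m : ℕ) : ZMod h) = 0 := by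
    push_cast
    rw [hmc, hbu]
    have : (u : ZMod h) * ((-(q : ZMod h)) * ((u⁻¹ : (ZMod h)ˣ) : ZMod h)) = -(q : ZMod h) := by
      rw [mul_comm, mul_assoc, Units.inv_mul, mul_one]
    rw [this]; ring
  obtain ⟨n, hn⟩ := (ZMod.natCast_eq_zero_iff _ _).1 hz
  refine ⟨n, m, ?_, ZMod.val_lt _, by rw [hn, mul_comm]⟩
  by_contra hcon
  have hm0 : m = 0 := by omega
  rw [hm0, mul_zero, add_zero] at hn
  have hdvd : h ∣ q := ⟨n, hn⟩
  rcases (Nat.dvd_prime hq).1 hdvd with h2 | h2 <;> omega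

theorem main_count {q x : ℕ} (hq : q.Prime) (hx : 100000000 ≤ x) (hxq : (2 * x) ^ 3 ≤ q) :
    ∃ R : Finset ℕ, (∀ n ∈ R, 1 ≤ n ∧ n < q ∧ Good q n) ∧
      (BB x).card * (x - 7) ≤ 2 * R.card := by
  classical
  set PP : Finset (ℕ × ℕ) := (Ioc x (2 * x) ×ˢ BB x).filter (fun a => ¬ a.2 ∣ a.1) with hPP
  have hmem : ∀ a ∈ PP, x < a.1 ∧ a.1 ≤ 2 * x ∧ x / 4 < a.2 ∧ a.2 ≤ x ∧ a.2.Prime ∧ ¬ a.2 ∣ a.1 := by
    intro a ha
    rw [hPP, mem_filter, mem_product, mem_Ioc] at ha
    unfold BB at ha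
    rw [mem_filter, mem_Ioc] at ha
    tauto
  have hbig : 2 * x < q := by
    refine lt_of_lt_of_le ?_ hxq
    calc 2 * x = (2 * x) ^ 1 := (pow_one _).symm
      _ < (2 * x) ^ 3 := Nat.pow_lt_pow_right (by omega) (by norm_num)
  have hex : ∀ a ∈ PP, ∃ n m : ℕ, 1 ≤ m ∧ m < a.1 ∧ n * a.1 = q + a.2 * m := by
    intro a ha
    obtain ⟨h1, h2, h3, h4, h5, h6⟩ := hmem a ha
    exact exists_m hq h5 h6 (by omega) (by omega)
  choose! N M hM1 hM2 hNM using hex
  -- basic sizes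
  have hN : ∀ a ∈ PP, (2 * x) ^ 2 < N a ∧ N a < q := by
    intro a ha
    obtain ⟨h1, h2, h3, h4, h5, h6⟩ := hmem a ha
    have e1 := hNM a ha
    have e2 := hM1 a ha
    have e3 := hM2 a ha
    have e4 : 0 < a.2 * M a := Nat.mul_pos h5.pos e2
    constructor
    · by_contra hcon
      push Not at hcon
      have : N a * a.1 ≤ (2 * x) ^ 2 * (2 * x) := Nat.mul_le_mul hcon h2
      have e5 : (2 * x) ^ 2 * (2 * x) = (2 * x) ^ 3 := by ring
      omega
    · have e5 : a.2 * M a < (2 * x) ^ 2 := by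
        calc a.2 * M a ≤ x * (2 * x) := Nat.mul_le_mul h4 (by omega)
          _ < (2 * x) ^ 2 := by nlinarith
      have e6 : (2 * x) ^ 2 ≤ q := by
        refine le_trans ?_ hxq
        exact Nat.pow_le_pow_right (by omega) (by norm_num)
      by_contra hcon
      push Not at hcon
      have : q * 2 ≤ N a * a.1 := Nat.mul_le_mul hcon (by omega)
      omega
  -- the same first component
  have hfst : ∀ a ∈ PP, ∀ a' ∈ PP, N a = N a' → a.1 ≤ a'.1 := by
    intro a ha a' ha' hNN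
    by_contra hcon
    push Not at hcon
    obtain ⟨h1, h2, h3, h4, h5, h6⟩ := hmem a ha
    have e1 := hNM a ha
    have e1' := hNM a' ha'
    have e3 := hM2 a ha
    have e5 : a.2 * M a < (2 * x) ^ 2 := by
      calc a.2 * M a ≤ x * (2 * x) := Nat.mul_le_mul h4 (by omega)
        _ < (2 * x) ^ 2 := by nlinarith
    obtain ⟨k, hk⟩ := Nat.exists_eq_add_of_lt hcon
    have e6 : N a * a.1 = N a * a'.1 + N a * (k + 1) := by rw [hk]; ring
    have e7 : N a * 1 ≤ N a * (k + 1) := Nat.mul_le_mul_left _ (by omega)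
    have e8 := (hN a ha).1
    rw [hNN] at e6 e7 e8
    rw [hNN] at e1
    omega
  refine ⟨PP.image N, ?_, ?_⟩
  · intro n hn
    rw [mem_image] at hn
    obtain ⟨a, ha, rfl⟩ := hn
    obtain ⟨h1, h2, h3, h4, h5, h6⟩ := hmem a ha
    have e := hN a ha
    refine ⟨by omega, e.2, a.1, a.2, M a, h5.pos, by omega, hM1 a ha, hM2 a ha, ?_, hNM a ha⟩
    calc a.1 ^ 2 ≤ (2 * x) ^ 2 := Nat.pow_le_pow_left h2 2
      _ ≤ (2 * x) ^ 3 := Nat.pow_le_pow_right (by omega) (by norm_num)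
      _ ≤ q := hxq
  · -- number of pairs
    have hcount : (BB x).card * (x - 7) ≤ PP.card := by
      have e1 : PP.card = ∑ b ∈ BB x, ((Ioc x (2 * x)).filter (fun h => ¬ b ∣ h)).card := by
        rw [hPP, Finset.card_filter, Finset.sum_product_right]
        refine Finset.sum_congr rfl fun b _ => ?_
        rw [Finset.card_filter]
      rw [e1, ← smul_eq_mul]
      refine Finset.card_nsmul_le_sum _ _ _ fun b hb => ?_
      unfold BB at hb
      rw [mem_filter, mem_Ioc] at hb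
      have e2 := Finset.card_filter_add_card_filter_not (s := Ioc x (2 * x)) (fun h => b ∣ h)
      rw [Nat.card_Ioc] at e2
      have e3 : ((Ioc x (2 * x)).filter (fun h => b ∣ h)).card ≤ 7 := by
        have e4 : (Ioc x (2 * x)).filter (fun h => b ∣ h) ⊆
            (Ioc 0 (2 * x)).filter (fun h => b ∣ h) := by
          intro h hh
          rw [mem_filter, mem_Ioc] at hh ⊢
          exact ⟨⟨by omega, hh.1.2⟩, hh.2⟩
        refine (Finset.card_le_card e4).trans ?_
        rw [Nat.Ioc_filter_dvd_card_eq_div]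
        have e5 : 2 * x < 8 * b := by omega
        have e6 : 2 * x / b < 8 := by
          rw [Nat.div_lt_iff_lt_mul hb.2.pos]; exact e5
        omega
      have e7 : ((Ioc x (2 * x)).filter (fun h => ¬ b ∣ h)).card =
          ((Ioc x (2 * x)).filter (fun h => ¬ (b ∣ h))).card := rfl
      omega
    refine hcount.trans ?_
    refine Finset.card_le_mul_card_image PP 2 fun n hn => ?_
    -- fibres
    by_contra hcon
    push Not at hcon
    set FF := PP.filter (fun a => N a = n) with hFF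
    have hFmem : ∀ a ∈ FF, a ∈ PP ∧ N a = n := fun a ha => by
      rw [hFF, mem_filter] at ha; exact ha
    have hinj : Set.InjOn (fun a : ℕ × ℕ => a.2) (FF : Set (ℕ × ℕ)) := by
      intro a ha a' ha' haa
      obtain ⟨p1, p2⟩ := hFmem a ha
      obtain ⟨p1', p2'⟩ := hFmem a' ha'
      have e1 : a.1 = a'.1 := le_antisymm (hfst a p1 a' p1' (p2.trans p2'.symm))
        (hfst a' p1' a p1 (p2'.trans p2.symm))
      exact Prod.ext e1 haa
    have hne : FF.Nonempty := by
      rw [← Finset.card_pos]; omega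
    obtain ⟨a₀, ha₀⟩ := hne
    obtain ⟨p0, p0'⟩ := hFmem a₀ ha₀
    have hprod : (∏ b ∈ FF.image (fun a => a.2), b) ∣ n * a₀.1 - q := by
      refine Finset.prod_primes_dvd _ (fun b hb => ?_) fun b hb => ?_
      · rw [mem_image] at hb
        obtain ⟨a, ha, rfl⟩ := hb
        exact Nat.prime_iff.1 (hmem a (hFmem a ha).1).2.2.2.2.1
      · rw [mem_image] at hb
        obtain ⟨a, ha, rfl⟩ := hb
        obtain ⟨p1, p2⟩ := hFmem a ha
        have e1 : a.1 = a₀.1 := le_antisymm (hfst a p1 a₀ p0 (p2.trans p0'.symm))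
          (hfst a₀ p0 a p1 (p0'.trans p2.symm))
        have e2 := hNM a p1
        rw [p2, e1] at e2
        rw [e2, Nat.add_sub_cancel_left]
        exact Dvd.intro _ rfl
    have e0 := hNM a₀ p0
    rw [p0'] at e0
    obtain ⟨h1, h2, h3, h4, h5, h6⟩ := hmem a₀ p0
    have hT : n * a₀.1 - q = a₀.2 * M a₀ := by rw [e0, Nat.add_sub_cancel_left]
    have hTpos : 0 < a₀.2 * M a₀ := Nat.mul_pos h5.pos (hM1 a₀ p0)
    have hTlt : a₀.2 * M a₀ < (2 * x) ^ 2 := by
      have e3 := hM2 a₀ p0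
      calc a₀.2 * M a₀ ≤ x * (2 * x) := Nat.mul_le_mul h4 (by omega)
        _ < (2 * x) ^ 2 := by nlinarith
    rw [hT] at hprod
    have hle := Nat.le_of_dvd hTpos hprod
    have hlow : (x / 4 + 1) ^ (FF.image (fun a : ℕ × ℕ => a.2)).card ≤
        ∏ b ∈ FF.image (fun a => a.2), b := by
      rw [← Finset.prod_const]
      refine Finset.prod_le_prod' fun b hb => ?_
      rw [mem_image] at hb
      obtain ⟨a, ha, rfl⟩ := hb
      exact (hmem a (hFmem a ha).1).2.2.1
    rw [Finset.card_image_of_injOn hinj] at hlow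
    have hlow3 : (x / 4 + 1) ^ 3 ≤ (x / 4 + 1) ^ FF.card :=
      Nat.pow_le_pow_right (by omega) (by omega)
    set y := x / 4 + 1 with hy
    have hxy : x < 4 * y := by omega
    have hy64 : 64 ≤ y := by omega
    have e9 : (2 * x) ^ 2 ≤ 64 * y ^ 2 := by nlinarith
    have e10 : 64 * y ^ 2 ≤ y ^ 3 := by nlinarith [Nat.pow_le_pow_left hy64 2]
    omega

theorem t_CNT : S_CNT := by
  refine ⟨Real.log 2 / 256, by have := Real.log_two_gt_d9; positivity, (2 * (100000000 + 1)) ^ 3,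
    fun q hq hQ => ?_⟩
  set z : ℝ := (q : ℝ) ^ ((1 : ℝ) / 3) with hz
  have hq0 : (0 : ℝ) ≤ q := Nat.cast_nonneg _
  have hz0 : 0 ≤ z := Real.rpow_nonneg hq0 _
  have hz3 : z ^ 3 = q := by
    rw [hz, ← Real.rpow_natCast, ← Real.rpow_mul hq0]; norm_num
  have hz2 : z ^ 2 = (q : ℝ) ^ ((2 : ℝ) / 3) := by
    rw [hz, ← Real.rpow_natCast, ← Real.rpow_mul hq0]; norm_num
  have hzbig : 2 * (100000000 + 1) ≤ z := by
    by_contra hcon
    push Not at hcon
    have h1 : z ^ 3 < (2 * (100000000 + 1)) ^ 3 := pow_lt_pow_left₀ hcon hz0 (by norm_num)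
    rw [hz3] at h1
    have h2 : ((2 * (100000000 + 1)) ^ 3 : ℝ) ≤ q := by exact_mod_cast hQ
    linarith
  set x : ℕ := ⌊z / 2⌋₊ with hx
  have hxz : (x : ℝ) ≤ z / 2 := Nat.floor_le (by positivity)
  have hxz' : z / 2 < x + 1 := Nat.lt_floor_add_one _
  have hxbig : 100000000 ≤ x := by
    have : (100000000 : ℝ) < x + 1 := by linarith
    have h2 : ((100000000 : ℕ) : ℝ) < ((x + 1 : ℕ) : ℝ) := by push_cast; exact this
    have h3 := Nat.cast_lt.1 h2
    omega
  have hxr : (100000000 : ℝ) ≤ x := by exact_mod_cast hxbig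
  have hxq : (2 * x) ^ 3 ≤ q := by
    have h1 : (2 * (x : ℝ)) ^ 3 ≤ z ^ 3 := pow_le_pow_left₀ (by positivity) (by linarith) 3
    rw [hz3] at h1
    exact_mod_cast h1
  obtain ⟨R, hR, hc⟩ := main_count hq hxbig hxq
  refine ⟨R, hR, ?_⟩
  have hB := BB_card hxbig
  have hc' : ((BB x).card : ℝ) * ((x : ℝ) / 2) ≤ 2 * (R.card : ℝ) := by
    have h1 : (((BB x).card * (x - 7) : ℕ) : ℝ) ≤ ((2 * R.card : ℕ) : ℝ) := by exact_mod_cast hc
    push_cast [Nat.cast_sub (show 7 ≤ x by omega)] at h1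
    refine le_trans ?_ h1
    refine mul_le_mul_of_nonneg_left ?_ (Nat.cast_nonneg _)
    linarith
  have hlogx0 : 0 < Real.log x := Real.log_pos (by linarith)
  have hxleq : (x : ℝ) ≤ q := by
    have h1 : x ≤ q := by
      refine le_trans ?_ hxq
      calc x ≤ 2 * x := by omega
        _ = (2 * x) ^ 1 := (pow_one _).symm
        _ ≤ (2 * x) ^ 3 := Nat.pow_le_pow_right (by omega) (by norm_num)
    exact_mod_cast h1
  have hlogq : Real.log x ≤ Real.log q := Real.log_le_log (by linarith) hxleq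
  have hlogq0 : 0 < Real.log q := by linarith
  have hzx : z ≤ 4 * x := by linarith
  have hl2 : 0 < Real.log 2 := by have := Real.log_two_gt_d9; linarith
  rw [div_le_iff₀ hlogq0, ← hz2]
  have h1 : Real.log 2 / 4 * x * ((x : ℝ) / 2) ≤ 2 * (R.card : ℝ) * Real.log x := by
    calc Real.log 2 / 4 * x * ((x : ℝ) / 2) ≤ ((BB x).card : ℝ) * Real.log x * ((x : ℝ) / 2) :=
          mul_le_mul_of_nonneg_right hB (by positivity)
      _ = ((BB x).card : ℝ) * ((x : ℝ) / 2) * Real.log x := by ring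
      _ ≤ 2 * (R.card : ℝ) * Real.log x := mul_le_mul_of_nonneg_right hc' hlogx0.le
  have h2 : 2 * (R.card : ℝ) * Real.log x ≤ 2 * (R.card : ℝ) * Real.log q :=
    mul_le_mul_of_nonneg_left hlogq (by positivity)
  have h3 : z ^ 2 ≤ (4 * (x : ℝ)) ^ 2 := pow_le_pow_left₀ hz0 hzx 2
  have h4 : Real.log 2 / 256 * z ^ 2 ≤ Real.log 2 / 256 * (4 * (x : ℝ)) ^ 2 :=
    mul_le_mul_of_nonneg_left h3 (by positivity)
  have h5 : Real.log 2 / 256 * (4 * (x : ℝ)) ^ 2 = Real.log 2 / 4 * x * ((x : ℝ) / 2) / 2 := by ring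
  rw [h5] at h4
  linarith

end Pool.Agent.Run7.h213.NP
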